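import Pool.Agent.Lib.MP_adc574_ag_IS.IsoB

/-!
# The pairing and the conjugate filtration
-/

set_option autoImplicit false

namespace MPadcIS

open MvPolynomial MPadcHM MPadcLZ MPadcBK MPadcGM

universe u

section anti

variable {K : Type u} [Field K] {V : Type*} [Fintype V] [DecidableEq V]

/-- An invertible matrix which is zero below the antidiagonal. -/
theorem anti (lv : V → ℕ) (G : V → V → K) (n b : ℕ) (hG : ∀ w w', n ≤ lv w → b < lv w' → G w w' = 0)
    (hinj : ∀ a : V → K, (∀ w', ∑ w, a w * G w w' = 0) → a = 0)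
    (hcard : Fintype.card {w // n ≤ lv w} = Fintype.card {w // lv w ≤ b}) (a : V → K)
    (ha : ∀ w', b < lv w' → ∑ w, a w * G w w' = 0) (w : V) (hw : lv w < n) : a w = 0 := by
  classical
  obtain ⟨φ, hφ⟩ : ∃ φ : ({w // n ≤ lv w} → K) →ₗ[K] ({w // lv w ≤ b} → K),
      ∀ x w', φ x w' = ∑ w : {w // n ≤ lv w}, x w * G w.1 w'.1 :=
    ⟨{ toFun := fun x w' => ∑ w : {w // n ≤ lv w}, x w * G w.1 w'.1
       map_add' := fun x y => by
        funext w'
        rw [Pi.add_apply, ← Finset.sum_add_distrib]
        exact Finset.sum_congr rfl fun v _ => add_mul _ _ _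
       map_smul' := fun c x => by
        funext w'
        rw [RingHom.id_apply, Pi.smul_apply, smul_eq_mul, Finset.mul_sum]
        exact Finset.sum_congr rfl fun v _ => mul_assoc _ _ _ }, fun _ _ => rfl⟩
  have hext : ∀ (x : {w // n ≤ lv w} → K) (w' : V),
      ∑ w, (if hw : n ≤ lv w then x ⟨w, hw⟩ else 0) * G w w' = ∑ w : {w // n ≤ lv w}, x w * G w.1 w' := by
    intro x w'
    have h1 : ∀ v : {w // n ≤ lv w}, x v * G v.1 w' =
        (fun w : V => (if hw : n ≤ lv w then x ⟨w, hw⟩ else 0) * G w w') v.1 := by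
      intro v
      show _ = (if hw : n ≤ lv v.1 then x ⟨v.1, hw⟩ else 0) * G v.1 w'
      rw [dif_pos v.2]
    rw [Finset.sum_congr rfl fun v _ => h1 v,
      ← Finset.sum_subtype (Finset.univ.filter fun w => n ≤ lv w) (fun v => by simp)
        (fun w : V => (if hw : n ≤ lv w then x ⟨w, hw⟩ else 0) * G w w'), Finset.sum_filter]
    refine Finset.sum_congr rfl fun v _ => ?_
    by_cases hv : n ≤ lv v
    · rw [if_pos hv]
    · rw [if_neg hv, dif_neg hv, zero_mul]
  have hzero : ∀ (x : {w // n ≤ lv w} → K) (w' : V), b < lv w' → ∑ w : {w // n ≤ lv w}, x w * G w.1 w' = 0 := by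
    intro x w' hw'
    exact Finset.sum_eq_zero fun w _ => by rw [hG w.1 w' w.2 hw', mul_zero]
  have hφi : Function.Injective φ := by
    rw [injective_iff_map_eq_zero]
    intro x hx
    have h1 := hinj (fun w => if hw : n ≤ lv w then x ⟨w, hw⟩ else 0) fun w' => by
      rw [hext]
      rcases le_or_gt (lv w') b with h2 | h2
      · have h3 := congrFun hx ⟨w', h2⟩
        rw [hφ] at h3
        exact h3
      · exact hzero x w' h2
    funext v
    have h2 := congrFun h1 v.1
    simp only [dif_pos v.2] at h2
    exact h2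
  have hφs : Function.Surjective φ := by
    refine (LinearMap.injective_iff_surjective_of_finrank_eq_finrank ?_).1 hφi
    rw [Module.finrank_fintype_fun_eq_card, Module.finrank_fintype_fun_eq_card]
    exact hcard
  obtain ⟨x, hx⟩ := hφs fun w' => ∑ w, a w * G w w'.1
  have h1 := hinj (a - fun w => if hw : n ≤ lv w then x ⟨w, hw⟩ else 0) fun w' => by
    have h2 : ∀ w, (a - fun w => if hw : n ≤ lv w then x ⟨w, hw⟩ else 0) w * G w w' =
        a w * G w w' - (if hw : n ≤ lv w then x ⟨w, hw⟩ else 0) * G w w' := fun w => by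
      rw [Pi.sub_apply, sub_mul]
    rw [Finset.sum_congr rfl fun w _ => h2 w, Finset.sum_sub_distrib, hext]
    rcases le_or_gt (lv w') b with h3 | h3
    · have h4 := congrFun hx ⟨w', h3⟩
      rw [hφ] at h4
      rw [h4, sub_self]
    · rw [hzero x w' h3, ha w' h3, sub_self]
  have h2 := congrFun h1 w
  rw [Pi.sub_apply, dif_neg (by omega), sub_zero] at h2
  exact h2

end anti

section

variable {K : Type u} [Field K] {N e d : ℕ} {F : MvPolynomial (Fin N) K} (H : RegF e F) (hd : d = e + 1) (hN : 1 ≤ N)
  (hF : Hm d F) {V : Type*} [Fintype V] [DecidableEq V] {g : V → Fin N →₀ ℕ} {lv : V → ℕ} {cd : V → (Fin N →₀ ℕ) → K}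
  {h : K} (hC : CData d (N - 1) F g lv cd h) (hh : h ≠ 0)

include hC in
theorem lev_dg (v : V) : dg (g v) + N = lv v * d := by
  rw [← tdg_dg]
  exact hC.lev v

include hC in
theorem lev_div (hd : 1 ≤ d) (v : V) : (dg (g v) + N) / d = lv v := by
  rw [lev_dg hC]
  exact Nat.mul_div_cancel _ hd

include H hd hC in
/-- Low levels. -/
theorem bil_lo {v v' : V} (hv : lv v + lv v' < N) : Bil H d (monomial (g v) 1) (monomial (g v') 1) = 0 := by
  rw [bil_mon]
  unfold bmon
  split_ifs
  · rw [lev_div hC (by omega), lev_div hC (by omega), bet_neg, mul_zero]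
    omega
  · rfl

include H hd hC in
theorem bil_mid {v v' : V} (hv : lv v + lv v' = N) : Bil H d (monomial (g v) 1) (monomial (g v') 1) =
    (-1) ^ (lv v + 1) * resf (gr F) (monomial (g v + g v') 1) := by
  rw [bil_mon]
  unfold bmon
  rw [if_pos ⟨⟨lv v, by rw [lev_dg hC, mul_comm]⟩, ⟨lv v', by rw [lev_dg hC, mul_comm]⟩⟩, lev_div hC (by omega),
    lev_div hC (by omega)]
  have h1 : ((lv v : ℤ) + (lv v' : ℤ) - N) = 0 := by omega
  rw [h1, bet_zero, monomial_mul, mul_one]

include H hd hC hh in
/-- The Gram matrix of the monomials is injective. -/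
theorem gram_inj (a : V → K) (ha : ∀ v', ∑ v, a v * Bil H d (monomial (g v) 1) (monomial (g v') 1) = 0) : a = 0 := by
  classical
  have key : ∀ n j : ℕ, N ≤ j + n → ∀ v, j ≤ lv v → a v = 0 := by
    intro n
    induction n with
    | zero =>
      intro j hj v hv
      have h1 := hC.lv_le v
      have h2 := hC.lv_pos v
      omega
    | succ n ih =>
      intro j hj v hv
      have h1 := hC.lv_le v
      have h2 := hC.lv_pos v
      rcases lt_or_eq_of_le hv with h3 | h3
      · exact ih (j + 1) (by omega) v h3
      · have h4 := rho_ind H hd hC hh (j := j) (by omega) (by omega) (fun w => if lv w = j then a w else 0)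
          (fun w hw => if_neg hw) (fun v' hv' => by
            have h5 := ha v'
            have h6 : ∀ w, a w * Bil H d (monomial (g w) 1) (monomial (g v') 1) =
                (-1) ^ (j + 1) * ((if lv w = j then a w else 0) * resf (gr F) (monomial (g w + g v') 1)) := by
              intro w
              rcases lt_trichotomy (lv w) j with h7 | h7 | h7
              · rw [bil_lo H hd hC (by omega), if_neg (by omega)]
                ring
              · rw [bil_mid H hd hC (by omega), if_pos h7, h7]
                ring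
              · rw [ih (j + 1) (by omega) w h7, if_neg (by omega)]
                ring
            rw [Finset.sum_congr rfl fun w _ => h6 w, ← Finset.mul_sum] at h5
            exact (mul_eq_zero.1 h5).resolve_left (pow_ne_zero _ (neg_ne_zero.2 one_ne_zero)))
        have h5 := congrFun h4 v
        simp only [← h3, if_true] at h5
        exact h5
  funext v
  exact key N 0 (by omega) v (Nat.zero_le _)

include H hd hN hF hC hh in
/-- The pairing is nondegenerate. -/
theorem nondeg (x : MvPolynomial (Fin N) K) (hx : ∀ y, Bil H d x y = 0) : brP d F x = 0 := by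
  obtain ⟨a, ha⟩ := span_g H hd hN hC hh x
  have h1 : x - ∑ v, a v • monomial (g v) 1 ∈ relZ d F := by
    rw [← rel_iff, map_sub, ha, map_sum]
    simp only [map_smul, sub_self]
  have h2 : a = 0 := gram_inj H hd hC hh a fun v' => by
    have h3 := bil_kerL H hd hN hF h1 (monomial (g v') 1)
    rw [map_sub, LinearMap.sub_apply, hx, zero_sub, neg_eq_zero, map_sum, LinearMap.sum_apply] at h3
    refine (Finset.sum_congr rfl fun v _ => ?_).trans h3
    rw [map_smul, LinearMap.smul_apply, smul_eq_mul]
  rw [ha, h2]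
  exact Finset.sum_eq_zero fun v _ => zero_smul _ _

variable (p : ℕ) [hp : Fact p.Prime] [CharP K p] (c : V → MvPolynomial (Fin N) K →ₗ[K] K)
  (crel : ∀ v i Q, c v (dl F i Q) = 0)
  (cout : ∀ v (w : Fin N →₀ ℕ), ¬ d ∣ dg w + N → c v (monomial w 1) = 0)
  (cin : ∀ v k (w : Fin N →₀ ℕ), 1 ≤ k → tdg w = k * d → c v (monomial w 1) = (-1) ^ k * gam p F cd lv v k (monomial w 1))

include crel cout in
theorem c_ker (v : V) {x : MvPolynomial (Fin N) K} (hx : x ∈ relZ d F) : c v x = 0 := by
  unfold relZ at hx
  induction hx using Submodule.span_induction with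
  | mem x hx =>
    rcases hx with ⟨i, Q, rfl⟩ | ⟨w, hw, rfl⟩
    · exact crel v i Q
    · exact cout v w hw
  | zero => rw [map_zero]
  | add a b _ _ ha hb => rw [map_add, ha, hb, add_zero]
  | smul c a _ ha => rw [map_smul, ha, smul_zero]

/-- The elements `x ^ (p g + p - 1)`. -/
noncomputable def ee (K : Type u) [Field K] {N : ℕ} (p : ℕ) (u : Fin N →₀ ℕ) : MvPolynomial (Fin N) K :=
  monomial (p • u + pm1 N p) 1

include hC cin in
theorem c_ee (v w : V) (hvw : lv v ≤ lv w) :
    c v (ee K p (g w)) = if v = w then (-1) ^ (p * lv w) * h ^ p else 0 := by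
  have hp0 := hp.out.pos
  have h1 : tdg (p • g w + pm1 N p) = p * lv w * d := by
    have h2 : tdg (p • g w + pm1 N p) = p * tdg (g w) := by
      unfold tdg
      rw [Finset.mul_sum]
      refine Finset.sum_congr rfl fun i _ => ?_
      have h : (p • g w + pm1 N p) i = p * g w i + (p - 1) := rfl
      rw [h, mul_add, mul_one, add_assoc, Nat.sub_add_cancel hp0]
    rw [h2, hC.lev, mul_assoc]
  have h2 : 1 ≤ p * lv w := Nat.mul_pos hp0 (hC.lv_pos w)
  unfold ee
  rw [cin v (p * lv w) _ h2 h1, gam_apply]
  have h3 := ap_fr p F (lv v : ℤ) (lv w : ℤ) (by exact_mod_cast hvw) (g w)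
  have h4 : ((p : ℤ) * (lv w : ℤ)) = ((p * lv w : ℕ) : ℤ) := by push_cast; rfl
  rw [h4] at h3
  rw [h3]
  by_cases h5 : lv v = lv w
  · rw [if_pos (by exact_mod_cast h5), ell_monomial, one_mul, hC.self]
    split_ifs
    · rfl
    · rw [zero_pow hp0.ne', mul_zero]
  · rw [if_neg (by exact_mod_cast h5), map_zero, mul_zero, if_neg]
    rintro rfl
    exact h5 rfl

include H hd hN hC hh crel cout cin in
/-- The elements `x ^ (p g + p - 1)` are independent. -/
theorem ind_ee (a : V → K) (ha : ∑ v, a v • brP d F (ee K p (g v)) = 0) : a = 0 := by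
  classical
  have h0 : ∀ v, ∑ w, a w * c v (ee K p (g w)) = 0 := by
    intro v
    have h1 : ∑ w, a w • ee K p (g w) ∈ relZ d F := by
      rw [← rel_iff, map_sum]
      simp only [map_smul]
      exact ha
    have h2 := c_ker c crel cout v h1
    rw [map_sum] at h2
    simp only [map_smul, smul_eq_mul] at h2
    exact h2
  have key : ∀ n : ℕ, ∀ v, lv v < n → a v = 0 := by
    intro n
    induction n with
    | zero => intro v hv; omega
    | succ n ih =>
      intro v hv
      rcases lt_or_eq_of_le (Nat.lt_succ_iff.1 hv) with h1 | h1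
      · exact ih v h1
      · have h2 := h0 v
        rw [Finset.sum_eq_single v] at h2
        · rw [c_ee hC p c cin v v le_rfl, if_pos rfl] at h2
          exact (mul_eq_zero.1 h2).resolve_right (mul_ne_zero (pow_ne_zero _ (neg_ne_zero.2 one_ne_zero)) (pow_ne_zero _ hh))
        · intro w _ hw
          rcases lt_or_ge (lv w) n with h3 | h3
          · rw [ih w h3, zero_mul]
          · rw [c_ee hC p c cin v w (by omega), if_neg hw.symm, mul_zero]
        · intro h3
          exact absurd (Finset.mem_univ v) h3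
  funext v
  exact key (lv v + 1) v (Nat.lt_succ_self _)

include H hd hN hC hh crel cout cin in
/-- The elements `x ^ (p g + p - 1)` generate the cohomology. -/
theorem span_ee (x : MvPolynomial (Fin N) K) : ∃ a : V → K, brP d F x = ∑ v, a v • brP d F (ee K p (g v)) := by
  classical
  have h1 : Submodule.span K (Set.range fun v => brP d F (monomial (g v) 1)) = ⊤ := by
    rw [eq_top_iff]
    rintro y -
    obtain ⟨x, rfl⟩ := brP_surj d F y
    obtain ⟨a, ha⟩ := span_g H hd hN hC hh x
    exact (Submodule.mem_span_range_iff_exists_fun K).2 ⟨a, ha.symm⟩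
  have hfin : Module.Finite K (PKm d F) := ⟨⟨Finset.univ.image fun v => brP d F (monomial (g v) 1), by
    rw [Finset.coe_image, Finset.coe_univ, Set.image_univ]
    exact h1⟩⟩
  have h2 : Module.finrank K (PKm d F) ≤ Fintype.card V := by
    rw [← finrank_top K (PKm d F), ← h1]
    exact finrank_range_le_card _
  have h3 : LinearIndependent K fun v => brP d F (ee K p (g v)) := by
    rw [Fintype.linearIndependent_iff]
    intro a ha v
    rw [ind_ee H hd hN hC hh p c crel cout cin a ha]
    rfl
  have h4 : Module.finrank K (PKm d F) = Fintype.card V := le_antisymm h2 h3.fintype_card_le_finrank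
  have h5 : Submodule.span K (Set.range fun v => brP d F (ee K p (g v))) = ⊤ :=
    h3.span_eq_top_of_card_eq_finrank' h4.symm
  have h6 : brP d F x ∈ Submodule.span K (Set.range fun v => brP d F (ee K p (g v))) := by
    rw [h5]
    exact Submodule.mem_top
  obtain ⟨a, ha⟩ := (Submodule.mem_span_range_iff_exists_fun K).1 h6
  exact ⟨a, ha.symm⟩

end

end MPadcIS
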