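import Pool.Agent.Lib.MP_adc574_ag_IS.IsoC

/-!
# The conjugate filtration is isotropic: the dual form
-/

set_option autoImplicit false

namespace MPadcIS

open MvPolynomial MPadcHM MPadcLZ MPadcBK MPadcGM

universe u

section

variable {K : Type u} [Field K] {N e d : ℕ} {F : MvPolynomial (Fin N) K} (H : RegF e F) (hd : d = e + 1) (hN : 1 ≤ N)
  (hF : Hm d F) {V : Type*} [Fintype V] [DecidableEq V] {g : V → Fin N →₀ ℕ} {lv : V → ℕ} {cd : V → (Fin N →₀ ℕ) → K}
  {h : K} (hC : CData d (N - 1) F g lv cd h) (hh : h ≠ 0)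

include H hd hC hh in
/-- The symmetry of the filtrations. -/
theorem count_fil {b : ℕ} (hb : b ≤ N) : Fintype.card {w // N - b ≤ lv w} = Fintype.card {w // lv w ≤ b} := by
  classical
  have hle : ∀ w, lv w ≤ N := fun w => (hC.lv_le w).trans (Nat.sub_le _ _)
  rw [Fintype.card_subtype, Fintype.card_subtype,
    Finset.card_eq_sum_card_fiberwise (f := fun w => N - lv w) (s := Finset.univ.filter fun w => N - b ≤ lv w)
      (t := Finset.range (b + 1)) (fun w hw => by
        have h1 := (Finset.mem_filter.1 hw).2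
        rw [Finset.coe_range, Set.mem_Iio]
        show N - lv w < b + 1
        omega),
    Finset.card_eq_sum_card_fiberwise (f := lv) (s := Finset.univ.filter fun w => lv w ≤ b)
      (t := Finset.range (b + 1)) (fun w hw => by
        have h1 := (Finset.mem_filter.1 hw).2
        rw [Finset.coe_range, Set.mem_Iio]
        omega)]
  refine Finset.sum_congr rfl fun j hj => ?_
  have hj' := Finset.mem_range.1 hj
  have h1 := count_symm H hd hC hh (j := j) (by omega)
  rw [Fintype.card_subtype, Fintype.card_subtype] at h1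
  have h2 : (Finset.univ.filter fun w => N - b ≤ lv w).filter (fun w => N - lv w = j) =
      Finset.univ.filter fun w => lv w = N - j := by
    ext w
    rw [Finset.mem_filter, Finset.mem_filter, Finset.mem_filter]
    have := hle w
    constructor
    · rintro ⟨⟨_, h3⟩, h4⟩
      exact ⟨Finset.mem_univ _, by omega⟩
    · rintro ⟨_, h3⟩
      exact ⟨⟨Finset.mem_univ _, by omega⟩, by omega⟩
  have h3 : (Finset.univ.filter fun w => lv w ≤ b).filter (fun w => lv w = j) = Finset.univ.filter fun w => lv w = j := by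
    ext w
    rw [Finset.mem_filter, Finset.mem_filter, Finset.mem_filter]
    constructor
    · rintro ⟨_, h4⟩
      exact ⟨Finset.mem_univ _, h4⟩
    · rintro ⟨_, h4⟩
      exact ⟨⟨Finset.mem_univ _, by omega⟩, h4⟩
  rw [h2, h3, ← h1]

include H hd hC hh in
/-- For an odd number of variables half of the monomials have level less than `N / 2`. -/
theorem count_half (ho : Odd N) : Fintype.card V = 2 * Fintype.card {w // 2 * lv w < N} := by
  classical
  obtain ⟨b, hb⟩ := ho
  have h1 := count_fil H hd hC hh (b := b) (by omega)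
  have h2 : Fintype.card {w // 2 * lv w < N} = Fintype.card {w // lv w ≤ b} := by
    rw [Fintype.card_subtype, Fintype.card_subtype]
    congr 1
    refine Finset.filter_congr fun w _ => ?_
    constructor <;> intro _ <;> omega
  have h3 : Fintype.card {w // N - b ≤ lv w} = Fintype.card {w // ¬ lv w ≤ b} := by
    rw [Fintype.card_subtype, Fintype.card_subtype]
    congr 1
    refine Finset.filter_congr fun w _ => ?_
    constructor <;> intro _ <;> omega
  have h4 := Fintype.card_subtype_compl fun w => lv w ≤ b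
  have h5 := Fintype.card_subtype_le fun w => lv w ≤ b
  omega

variable (p : ℕ) [hp : Fact p.Prime] [CharP K p] (c : V → MvPolynomial (Fin N) K →ₗ[K] K)
  (crel : ∀ v i Q, c v (dl F i Q) = 0)
  (cout : ∀ v (w : Fin N →₀ ℕ), ¬ d ∣ dg w + N → c v (monomial w 1) = 0)
  (cin : ∀ v k (w : Fin N →₀ ℕ), 1 ≤ k → tdg w = k * d → c v (monomial w 1) = (-1) ^ k * gam p F cd lv v k (monomial w 1))

include H hd hC in
/-- Isotropy in terms of levels. -/
theorem ee_iso {w w' : V} (hw : N < lv w + lv w') : Bil H d (ee K p (g w)) (ee K p (g w')) = 0 := by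
  refine bil_iso H p d ?_
  have h1 := lev_dg hC w
  have h2 := lev_dg hC w'
  have h3 : (N + 1) * d ≤ (lv w + lv w') * d := Nat.mul_le_mul_right d hw
  obtain ⟨f, hf⟩ : ∃ f, e = f + 1 := ⟨e - 1, by have := H.he; omega⟩
  rw [hf, Nat.add_sub_cancel]
  rw [add_mul, one_mul, add_mul, ← h1, ← h2, hd, hf] at h3
  have h4 : N * (f + 1 + 1) = N * f + 2 * N := by ring
  rw [h4] at h3
  omega

include H hd hN hF hC hh crel cout cin in
theorem inj_ee (a : V → K) (ha : ∀ w', ∑ w, a w * Bil H d (ee K p (g w)) (ee K p (g w')) = 0) : a = 0 := by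
  refine ind_ee H hd hN hC hh p c crel cout cin a ?_
  have h1 : brP d F (∑ w, a w • ee K p (g w)) = 0 := by
    refine nondeg H hd hN hF hC hh _ fun y => ?_
    obtain ⟨x, hx⟩ := span_ee H hd hN hC hh p c crel cout cin y
    have h2 : y - ∑ w, x w • ee K p (g w) ∈ relZ d F := by
      rw [← rel_iff, map_sub, hx, map_sum]
      simp only [map_smul, sub_self]
    have h3 := bil_kerR H hd hN hF (∑ w, a w • ee K p (g w)) h2
    rw [map_sub, sub_eq_zero] at h3
    rw [h3, map_sum]
    refine Finset.sum_eq_zero fun w' _ => ?_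
    rw [map_smul, map_sum, LinearMap.sum_apply]
    have h4 := ha w'
    refine mul_eq_zero_of_right _ ?_
    refine (Finset.sum_congr rfl fun w _ => ?_).trans h4
    rw [map_smul, LinearMap.smul_apply, smul_eq_mul]
  rw [map_sum] at h1
  simp only [map_smul] at h1
  exact h1

include H hd hN hC hh crel cout cin in
/-- The common kernel of the functionals of level at most `i`. -/
theorem fil_mem {i : ℕ} (y : MvPolynomial (Fin N) K) (hy : ∀ v, lv v ≤ i → c v y = 0) :
    ∃ a : V → K, brP d F y = ∑ v, a v • brP d F (ee K p (g v)) ∧ ∀ v, lv v ≤ i → a v = 0 := by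
  classical
  obtain ⟨a, ha⟩ := span_ee H hd hN hC hh p c crel cout cin y
  refine ⟨a, ha, ?_⟩
  have h0 : ∀ v, c v y = ∑ w, a w * c v (ee K p (g w)) := by
    intro v
    have h1 : y - ∑ w, a w • ee K p (g w) ∈ relZ d F := by
      rw [← rel_iff, map_sub, ha, map_sum]
      simp only [map_smul, sub_self]
    have h2 := c_ker c crel cout v h1
    rw [map_sub, sub_eq_zero, map_sum] at h2
    simp only [map_smul, smul_eq_mul] at h2
    exact h2
  have key : ∀ n : ℕ, n ≤ i + 1 → ∀ v, lv v < n → a v = 0 := by
    intro n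
    induction n with
    | zero => intro _ v hv; omega
    | succ n ih =>
      intro hn v hv
      rcases lt_or_eq_of_le (Nat.lt_succ_iff.1 hv) with h1 | h1
      · exact ih (by omega) v h1
      · have h2 := h0 v
        rw [hy v (by omega), Finset.sum_eq_single v] at h2
        · rw [c_ee hC p c cin v v le_rfl, if_pos rfl] at h2
          exact (mul_eq_zero.1 h2.symm).resolve_right
            (mul_ne_zero (pow_ne_zero _ (neg_ne_zero.2 one_ne_zero)) (pow_ne_zero _ hh))
        · intro w _ hw
          rcases lt_or_ge (lv w) n with h3 | h3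
          · rw [ih (by omega) w h3, zero_mul]
          · rw [c_ee hC p c cin v w (by omega), if_neg hw.symm, mul_zero]
        · intro h3
          exact absurd (Finset.mem_univ v) h3
  exact fun v hv => key (i + 1) le_rfl v (Nat.lt_succ_of_le hv)

include H hd hN hF hC hh crel cout cin in
/-- **Orthogonality of the functionals of low level.** -/
theorem iso_dual {v v' : V} (hv : lv v + lv v' ≤ N - 1) (z : MvPolynomial (Fin N) K) (hz : ∀ y, Bil H d z y = c v y) :
    c v' z = 0 := by
  classical
  obtain ⟨a, ha⟩ := span_ee H hd hN hC hh p c crel cout cin z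
  have h1 : z - ∑ w, a w • ee K p (g w) ∈ relZ d F := by
    rw [← rel_iff, map_sub, ha, map_sum]
    simp only [map_smul, sub_self]
  have h2 := anti lv (fun w w' => Bil H d (ee K p (g w)) (ee K p (g w'))) (N - lv v) (lv v)
    (fun w w' hw hw' => ee_iso H hd hC p (by omega))
    (inj_ee H hd hN hF hC hh p c crel cout cin)
    (count_fil H hd hC hh (by omega)) a (fun w' hw' => by
      have h3 := bil_kerL H hd hN hF h1 (ee K p (g w'))
      rw [map_sub, LinearMap.sub_apply, hz, sub_eq_zero, c_ee hC p c cin v w' hw'.le,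
        if_neg (by rintro rfl; omega), map_sum, LinearMap.sum_apply] at h3
      refine (Finset.sum_congr rfl fun w _ => ?_).trans h3.symm
      rw [map_smul, LinearMap.smul_apply, smul_eq_mul])
  have h3 := c_ker c crel cout v' h1
  rw [map_sub, sub_eq_zero, map_sum] at h3
  rw [h3]
  refine Finset.sum_eq_zero fun w _ => ?_
  rw [map_smul, smul_eq_mul]
  rcases lt_or_ge (lv w) (N - lv v) with h4 | h4
  · rw [h2 w h4, zero_mul]
  · rw [c_ee hC p c cin v' w (by omega), if_neg (by rintro rfl; omega), mul_zero]

include H hd hN hF hC hh crel cout cin in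
/-- **The matrix form.** -/
theorem iso_main {ι : Type*} [Fintype ι] [DecidableEq ι] (E : ι → MvPolynomial (Fin N) K)
    (hE : ∀ P, ∃ a : ι → K, brP d F P = ∑ l, a l • brP d F (E l)) (J : ι → ι → K)
    (hJ : ∀ l k, ∑ l', J l l' * Bil H d (E l') (E k) = if l = k then 1 else 0) {v v' : V}
    (hv : lv v + lv v' ≤ N - 1) : ∑ l, ∑ l', c v (E l) * J l l' * c v' (E l') = 0 := by
  classical
  obtain ⟨z, hz⟩ : ∃ z : MvPolynomial (Fin N) K, z = ∑ l', (∑ l, c v (E l) * J l l') • E l' := ⟨_, rfl⟩
  have h1 := iso_dual H hd hN hF hC hh p c crel cout cin hv z (fun y => by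
    obtain ⟨a, ha⟩ := hE y
    have h2 : y - ∑ l, a l • E l ∈ relZ d F := by
      rw [← rel_iff, map_sub, ha, map_sum]
      simp only [map_smul, sub_self]
    have h3 := bil_kerR H hd hN hF z h2
    have h4 := c_ker c crel cout v h2
    rw [map_sub, sub_eq_zero] at h3 h4
    rw [h3, h4, map_sum, map_sum]
    refine Finset.sum_congr rfl fun k _ => ?_
    rw [map_smul, map_smul, hz, map_sum, LinearMap.sum_apply]
    congr 1
    have h5 : ∀ l', Bil H d ((∑ l, c v (E l) * J l l') • E l') (E k) = ∑ l, c v (E l) * (J l l' * Bil H d (E l') (E k)) := by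
      intro l'
      rw [map_smul, LinearMap.smul_apply, smul_eq_mul, Finset.sum_mul]
      exact Finset.sum_congr rfl fun l _ => mul_assoc _ _ _
    rw [Finset.sum_congr rfl fun l' _ => h5 l', Finset.sum_comm]
    have h6 : ∀ l, ∑ l', c v (E l) * (J l l' * Bil H d (E l') (E k)) = c v (E l) * if l = k then 1 else 0 := by
      intro l
      rw [← Finset.mul_sum, hJ]
    rw [Finset.sum_congr rfl fun l _ => h6 l, Finset.sum_eq_single k]
    · rw [if_pos rfl, mul_one]
    · intro l _ hl
      rw [if_neg hl, mul_zero]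
    · intro h7
      exact absurd (Finset.mem_univ k) h7)
  rw [hz, map_sum] at h1
  rw [Finset.sum_comm]
  refine (Finset.sum_congr rfl fun l' _ => ?_).trans h1
  rw [map_smul, smul_eq_mul, Finset.sum_mul]

include H hd hN hF hC hh crel cout cin in
/-- **Duality of the determinants.** -/
theorem det_dual {i j : ℕ} (hij : i + j = N - 1)
    (hi : ∀ y : V → K, ∃ μ : V → K, ∀ v, lv v ≤ i → ∑ u, (if lv u ≤ i then μ u * c v (monomial (g u) 1) else 0) = y v)
    (lam : V → K) (hl : ∀ u, j < lv u → lam u = 0) (h0 : ∀ v, lv v ≤ j → ∑ u, lam u * c v (monomial (g u) 1) = 0) :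
    lam = 0 := by
  classical
  obtain ⟨x, hx⟩ : ∃ x : MvPolynomial (Fin N) K, x = ∑ u, lam u • monomial (g u) 1 := ⟨_, rfl⟩
  obtain ⟨a, ha, ha0⟩ := fil_mem H hd hN hC hh p c crel cout cin (i := j) x (fun v hv => by
    rw [hx, map_sum]
    refine (Finset.sum_congr rfl fun u _ => ?_).trans (h0 v hv)
    rw [map_smul, smul_eq_mul])
  have hxa : x - ∑ w, a w • ee K p (g w) ∈ relZ d F := by
    rw [← rel_iff, map_sub, ha, map_sum]
    simp only [map_smul, sub_self]
  have hzero : ∀ y, Bil H d x y = 0 := by
    intro y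
    obtain ⟨μ, hμ⟩ := hi fun v => c v y
    obtain ⟨b, hb, hb0⟩ := fil_mem H hd hN hC hh p c crel cout cin (i := i)
      (y - ∑ u, (if lv u ≤ i then μ u • monomial (g u) 1 else 0)) (fun v hv => by
        rw [map_sub, map_sum, ← hμ v hv, sub_eq_zero]
        refine Finset.sum_congr rfl fun u _ => ?_
        split_ifs
        · rw [map_smul, smul_eq_mul]
        · rw [map_zero])
    have h1 : y - ∑ u, (if lv u ≤ i then μ u • monomial (g u) 1 else 0) - ∑ w, b w • ee K p (g w) ∈ relZ d F := by
      rw [← rel_iff, map_sub, hb, map_sum]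
      simp only [map_smul, sub_self]
    have h2 := bil_kerR H hd hN hF x h1
    have h3 : Bil H d x (∑ u, (if lv u ≤ i then μ u • monomial (g u) 1 else 0)) = 0 := by
      rw [map_sum]
      refine Finset.sum_eq_zero fun u _ => ?_
      split_ifs with hu
      · rw [map_smul, hx, map_sum, LinearMap.sum_apply, Finset.sum_eq_zero, smul_zero]
        intro w _
        rw [map_smul, LinearMap.smul_apply]
        rcases le_or_gt (lv w) j with h4 | h4
        · rw [bil_lo H hd hC (by omega), smul_zero]
        · rw [hl w h4, zero_smul]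
      · rw [map_zero]
    have h4 : Bil H d x (∑ w, b w • ee K p (g w)) = 0 := by
      rw [map_sum]
      refine Finset.sum_eq_zero fun w _ => ?_
      rw [map_smul]
      rcases le_or_gt (lv w) i with h5 | h5
      · rw [hb0 w h5, zero_smul]
      · have h6 := bil_kerL H hd hN hF hxa (ee K p (g w))
        rw [map_sub, LinearMap.sub_apply, sub_eq_zero] at h6
        rw [h6, map_sum, LinearMap.sum_apply, Finset.sum_eq_zero, smul_zero]
        intro w' _
        rw [map_smul, LinearMap.smul_apply]
        rcases le_or_gt (lv w') j with h7 | h7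
        · rw [ha0 w' h7, zero_smul]
        · rw [ee_iso H hd hC p (by omega), smul_zero]
    rw [map_sub, map_sub, h3, h4, sub_zero, sub_zero] at h2
    exact h2
  refine gram_inj H hd hC hh lam fun v' => ?_
  have h1 := hzero (monomial (g v') 1)
  rw [hx, map_sum, LinearMap.sum_apply] at h1
  refine (Finset.sum_congr rfl fun u _ => ?_).trans h1
  rw [map_smul, LinearMap.smul_apply, smul_eq_mul]

end

end MPadcIS
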