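import Pool.Agent.Lib.MP_adc574_ag_IS.JacP
import Pool.Agent.Lib.MP_adc574_ag_LZ.Pair
import Pool.Agent.Lib.MP_adc574_ag_BK.Gam

/-!
# The conjugate filtration is isotropic

In characteristic `p` the higher residue pairings `bet` are bilinear over the `p`-th powers, and they kill the multiples of the
`p`-th powers of the partial derivatives of `F`.
-/

set_option autoImplicit false

namespace MPadcIS

open MvPolynomial MPadcHM MPadcLZ

universe u

section adj

variable {K : Type u} [Field K] {N e : ℕ} {F : MvPolynomial (Fin N) K} (H : RegF e F)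

/-- The constants of the derivations `∂_i` can be moved to the other side. -/
theorem bet_adj {a : MvPolynomial (Fin N) K} (ha : ∀ i, pderiv i a = 0) (m : ℤ) (P Q : MvPolynomial (Fin N) K) :
    bet H m (a * P) Q = bet H m P (a * Q) := by
  have h1 : ∀ i, dxa K i (algebraMap (MvPolynomial (Fin N) K) (FF K N) a) = 0 := by
    intro i
    rw [dxa_apply, dx_alg, ha, map_zero]
  rw [bet_apply, bet_apply]
  unfold bet0
  rw [map_mul (algebraMap (MvPolynomial (Fin N) K) (FF K N)) a P, map_mul (algebraMap (MvPolynomial (Fin N) K) (FF K N)) a Q,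
    gs_mul H.cz _ h1]
  split_ifs
  · congr 1
    ring
  · rfl

/-- The functional on the sequences. -/
private noncomputable def Lam (m : ℤ) (P : MvPolynomial (Fin N) K) : Polynomial (MvPolynomial (Fin N) K) →ₗ[K] K :=
  Polynomial.lsum fun k : ℕ => bet H (m - k) P

private theorem Lam_monomial (m : ℤ) (P : MvPolynomial (Fin N) K) (k : ℕ) (a : MvPolynomial (Fin N) K) :
    Lam H m P (Polynomial.monomial k a) = bet H (m - k) P a := by
  unfold Lam
  rw [Polynomial.lsum_apply, Polynomial.sum_monomial_index a _ (by exact map_zero (bet H (m - k) P))]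

private theorem der_pderiv (i : Fin N) : MPadcLF.IsDer fun a : MvPolynomial (Fin N) K => pderiv i a := by
  constructor
  · intro a b
    exact map_add _ a b
  · intro a b
    show pderiv i (a * b) = _
    rw [Derivation.leibniz, smul_eq_mul, smul_eq_mul]

private theorem Lam_zero (m : ℤ) (P : MvPolynomial (Fin N) K) (i : Fin N) (G : Polynomial (MvPolynomial (Fin N) K)) :
    Lam H m P (Polynomial.C (pderiv i F) * G + hd (fun a => pderiv i a) G) = 0 := by
  induction G using Polynomial.induction_on' with
  | add G G' h1 h2 =>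
    rw [mul_add, (isDer_hd (der_pderiv i)).add, add_add_add_comm, map_add, h1, h2, add_zero]
  | monomial k a =>
    have h1 : hd (fun a : MvPolynomial (Fin N) K => pderiv i a) (Polynomial.monomial k a) =
        Polynomial.monomial (k + 1) (pderiv i a) := by
      unfold hd
      ext1 j
      cases j with
      | zero =>
        rw [Polynomial.mul_coeff_zero, Polynomial.coeff_X_zero, zero_mul, Polynomial.coeff_monomial,
          if_neg (by omega)]
      | succ j =>
        rw [Polynomial.coeff_X_mul, MPadcLF.coeff_cm (der_pderiv i).zero, Polynomial.coeff_monomial, Polynomial.coeff_monomial]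
        by_cases hj : k = j
        · rw [if_pos hj, if_pos (by omega)]
        · rw [if_neg hj, if_neg (by omega), map_zero]
    rw [h1, Polynomial.C_mul_monomial, map_add, Lam_monomial, Lam_monomial]
    have h2 := bet_relR H (m - (k + 1 : ℕ)) i P a
    have h3 : m - ((k + 1 : ℕ) : ℤ) + 1 = m - k := by
      push_cast
      ring
    rw [h3] at h2
    rw [h2, neg_add_cancel]

variable (p : ℕ) [hp : Fact p.Prime] [CharP K p]

/-- In characteristic `p` the `p`-th iterate of `∂_i` is zero. -/
theorem pderiv_iter (i : Fin N) (Q : MvPolynomial (Fin N) K) : (fun a => pderiv i a)^[p] Q = 0 := by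
  have hD := der_pderiv (K := K) i
  have h0 : ∀ g : MvPolynomial (Fin N) K, it (fun a => pderiv i a) 0 p g = (fun a => pderiv i a)^[p] g := by
    intro g
    unfold it
    congr 2
    funext x
    rw [zero_mul, zero_add]
  obtain ⟨q, hq⟩ : ∃ q, p = q + 2 := ⟨p - 2, by have := hp.out.two_le; omega⟩
  have hC : ∀ n (a : K), (fun a => pderiv i a)^[n + 1] (C a : MvPolynomial (Fin N) K) = 0 := by
    intro n a
    rw [Function.iterate_succ_apply]
    show (fun a => pderiv i a)^[n] (pderiv i (C a)) = 0
    rw [pderiv_C]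
    exact Function.iterate_fixed (map_zero _) n
  have hX : ∀ j, (fun a => pderiv i a)^[p] (X j : MvPolynomial (Fin N) K) = 0 := by
    intro j
    rw [hq, Function.iterate_succ_apply]
    show (fun a => pderiv i a)^[q + 1] (pderiv i (X j)) = 0
    rw [pderiv_X]
    by_cases hj : i = j
    · subst hj
      rw [Pi.single_eq_same]
      exact hC q 1
    · rw [Pi.single_eq_of_ne (Ne.symm hj)]
      exact Function.iterate_fixed (map_zero _) (q + 1)
  induction Q using MvPolynomial.induction_on with
  | C a =>
    have h1 := hC (q + 1) a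
    rw [hq]
    exact h1
  | add P Q h1 h2 =>
    have h3 : (fun a => pderiv i a)^[p] (P + Q) = (fun a => pderiv i a)^[p] P + (fun a => pderiv i a)^[p] Q :=
      iterate_map_add (pderiv i : Derivation K (MvPolynomial (Fin N) K) (MvPolynomial (Fin N) K)) p P Q
    rw [h3, h1, h2, add_zero]
  | mul_X P j h1 =>
    have h2 := it_char p hD 0 0 P (X j)
    rw [add_zero, h0, h0, h0, h1, hX, zero_mul, mul_zero, add_zero] at h2
    exact h2

/-- The multiples of the `p`-th powers of the partial derivatives are in the kernel. -/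
theorem bet_pow (m : ℤ) (P Q : MvPolynomial (Fin N) K) (i : Fin N) : bet H m P (pderiv i F ^ p * Q) = 0 := by
  have h1 : (fun a => pderiv i a)^[p - 1] (pderiv i F) = 0 := by
    have h2 := pderiv_iter p i F
    obtain ⟨q, hq⟩ : ∃ q, p = q + 1 := ⟨p - 1, by have := hp.out.two_le; omega⟩
    rw [hq, Function.iterate_succ_apply] at h2
    rw [hq, Nat.add_sub_cancel]
    exact h2
  have h2 := fun_pow p (der_pderiv i) h1 (pderiv_iter p i Q) (Lam H m P).toAddMonoidHom (Lam_zero H m P i)
  have h3 : Lam H m P (Polynomial.C (pderiv i F ^ p * Q)) = 0 := h2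
  rw [← Polynomial.monomial_zero_left, Lam_monomial, Nat.cast_zero, sub_zero] at h3
  exact h3

include H in
/-- The monomials of large degree are in the Jacobian ideal. -/
theorem top_mem {w : Fin N →₀ ℕ} (hw : N * (e - 1) < dg w) : (monomial w (1 : K)) ∈ Ideal.span (Set.range (gr F)) := by
  refine resf_nondeg H.sop (fun j => mem_X H.he (H.hom j)) _ fun v => ?_
  refine resf_hom H.sop (fun _ => e) H.hom _ _ (hm_mul (hm_mono w 1) (hm_mono v 1)) ?_
  rw [Finset.sum_const, Finset.card_univ, Fintype.card_fin, smul_eq_mul]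
  have h1 := H.he
  obtain ⟨f, hf⟩ : ∃ f, e = f + 1 := ⟨e - 1, by omega⟩
  rw [hf, Nat.add_sub_cancel] at hw
  rw [hf, mul_add, mul_one]
  omega

theorem pderiv_pow_char (i : Fin N) (a : MvPolynomial (Fin N) K) : pderiv i (a ^ p) = 0 := by
  rw [Derivation.leibniz_pow]
  have h1 : ((p : ℕ) : MvPolynomial (Fin N) K) = 0 := by
    rw [← map_natCast (C : K →+* MvPolynomial (Fin N) K), CharP.cast_eq_zero K p, C_0]
  rw [nsmul_eq_mul, h1, zero_mul]

/-- **Isotropy.** -/
theorem bet_iso (m : ℤ) {u v : Fin N →₀ ℕ} (huv : N * (e - 1) < dg u + dg v) (P Q : MvPolynomial (Fin N) K) :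
    bet H m (monomial u 1 ^ p * P) (monomial v 1 ^ p * Q) = 0 := by
  have h1 : dg (u + v) = dg u + dg v := by
    unfold dg
    rw [← Finset.sum_add_distrib]
    rfl
  have h2 := top_mem H (w := u + v) (by rw [h1]; exact huv)
  obtain ⟨a, ha⟩ := Ideal.mem_span_range_iff_exists_fun.1 h2
  rw [bet_adj H (fun i => pderiv_pow_char p i _), ← mul_assoc, ← mul_pow, monomial_mul, mul_one, ← ha, sum_pow_char, Finset.sum_mul,
    map_sum]
  refine Finset.sum_eq_zero fun i _ => ?_
  rw [mul_pow, mul_comm (a i ^ p), mul_assoc]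
  exact bet_pow H p m P _ i

theorem mono_split (u : Fin N →₀ ℕ) : (monomial (p • u + MPadcGM.pm1 N p) 1 : MvPolynomial (Fin N) K) =
    monomial u 1 ^ p * monomial (MPadcGM.pm1 N p) 1 := by
  rw [monomial_pow, monomial_mul, one_pow, mul_one]

/-- **Isotropy of the conjugate filtration.** -/
theorem bil_iso (d : ℕ) {u v : Fin N →₀ ℕ} (huv : N * (e - 1) < dg u + dg v) :
    Bil H d (monomial (p • u + MPadcGM.pm1 N p) 1) (monomial (p • v + MPadcGM.pm1 N p) 1) = 0 := by
  rw [bil_mon]
  unfold bmon
  rw [mono_split, mono_split, bet_iso H p _ huv, mul_zero, ite_self]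

end adj

end MPadcIS
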