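import Pool.Agent.Lib.MP_adc574_ag_IS.IsoA
import Pool.Agent.Lib.MP_adc574_ag_LZ.PK

/-!
# The monomial basis of the cohomology and the pairing
-/

set_option autoImplicit false

namespace MPadcIS

open MvPolynomial MPadcHM MPadcLZ MPadcBK

universe u

theorem tdg_dg {N : ℕ} (e : Fin N →₀ ℕ) : tdg e = dg e + N := by
  unfold tdg dg
  rw [Finset.sum_add_distrib]
  simp

theorem dg_add {N : ℕ} (u v : Fin N →₀ ℕ) : dg (u + v) = dg u + dg v := by
  unfold dg
  rw [← Finset.sum_add_distrib]
  rfl

section

variable {K : Type u} [Field K] {N : ℕ}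

theorem comp_mul {M e : ℕ} (a b : MvPolynomial (Fin N) K)
    (hb : b.IsHomogeneous e) : homogeneousComponent M (a * b) =
      if e ≤ M then homogeneousComponent (M - e) a * b else 0 := by
  classical
  have h1 : a * b = ∑ k ∈ Finset.range (a.totalDegree + 1), homogeneousComponent k a * b := by
    rw [← Finset.sum_mul, sum_homogeneousComponent]
  have h2 : ∀ k, homogeneousComponent M (homogeneousComponent k a * b) =
      if M = k + e then homogeneousComponent k a * b else 0 := by
    intro k
    exact homogeneousComponent_of_mem ((homogeneousComponent_isHomogeneous k a).mul hb)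
  rw [h1, map_sum, Finset.sum_congr rfl fun k _ => h2 k]
  split_ifs with h
  · by_cases h3 : M - e ∈ Finset.range (a.totalDegree + 1)
    · rw [Finset.sum_eq_single (M - e)]
      · rw [if_pos (by omega)]
      · intro k _ hk
        rw [if_neg (by omega)]
      · intro h4
        exact absurd h3 h4
    · rw [Finset.sum_eq_zero, homogeneousComponent_eq_zero _ _ (by
        rw [Finset.mem_range] at h3
        omega), zero_mul]
      intro k hk
      rw [if_neg]
      rintro h4
      apply h3
      have h5 : M - e = k := by omega
      rw [h5]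
      exact hk
  · refine Finset.sum_eq_zero fun k _ => ?_
    rw [if_neg (by omega)]

/-- The homogeneous elements of the Jacobian ideal. -/
theorem jac_hom {e q : ℕ} {F P : MvPolynomial (Fin N) K} (H : RegF e F) (hP : P.IsHomogeneous q)
    (hJ : P ∈ Ideal.span (Set.range (gr F))) : ∃ Q : Fin N → MvPolynomial (Fin N) K,
      (∀ j, (Q j).IsHomogeneous (q - e)) ∧ (q < e → ∀ j, Q j = 0) ∧ P = ∑ j, gr F j * Q j := by
  obtain ⟨c, hc⟩ := Ideal.mem_span_range_iff_exists_fun.1 hJ
  have h1 := congrArg (homogeneousComponent q) hc
  rw [homogeneousComponent_eq_self hP, map_sum] at h1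
  by_cases h : e ≤ q
  · refine ⟨fun j => homogeneousComponent (q - e) (c j), fun j => homogeneousComponent_isHomogeneous _ _,
      fun h' => absurd h' (by omega), h1.symm.trans ?_⟩
    refine Finset.sum_congr rfl fun j _ => ?_
    rw [comp_mul _ _ ((hm_iff e _).1 (H.hom j)), if_pos h, mul_comm]
  · refine ⟨fun _ => 0, fun j => isHomogeneous_zero _ _ _, fun _ _ => rfl, h1.symm.trans ?_⟩
    refine Finset.sum_congr rfl fun j _ => ?_
    rw [comp_mul _ _ ((hm_iff e _).1 (H.hom j)), if_neg h, mul_zero]

variable {e d : ℕ} {F : MvPolynomial (Fin N) K} (H : RegF e F)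

theorem bil_kerL (hd : d = e + 1) (hN : 1 ≤ N) (hF : Hm d F) {x : MvPolynomial (Fin N) K} (hx : x ∈ relZ d F)
    (y : MvPolynomial (Fin N) K) : Bil H d x y = 0 := by
  unfold relZ at hx
  induction hx using Submodule.span_induction with
  | mem x hx =>
    rcases hx with ⟨i, Q, rfl⟩ | ⟨w, hw, rfl⟩
    · exact bil_relL H hd hN hF i Q y
    · exact bil_outL H (hm_mono w 1) hw y
  | zero => rw [map_zero, LinearMap.zero_apply]
  | add a b _ _ ha hb => rw [map_add, LinearMap.add_apply, ha, hb, add_zero]
  | smul c a _ ha => rw [map_smul, LinearMap.smul_apply, ha, smul_zero]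

theorem bil_kerR (hd : d = e + 1) (hN : 1 ≤ N) (hF : Hm d F) (x : MvPolynomial (Fin N) K)
    {y : MvPolynomial (Fin N) K} (hy : y ∈ relZ d F) : Bil H d x y = 0 := by
  unfold relZ at hy
  induction hy using Submodule.span_induction with
  | mem y hy =>
    rcases hy with ⟨i, Q, rfl⟩ | ⟨w, hw, rfl⟩
    · exact bil_relR H hd hN hF i Q x
    · exact bil_outR H (hm_mono w 1) hw x
  | zero => rw [map_zero]
  | add a b _ _ ha hb => rw [map_add, ha, hb, add_zero]
  | smul c a _ ha => rw [map_smul, ha, smul_zero]

theorem rel_iff {x : MvPolynomial (Fin N) K} : brP d F x = 0 ↔ x ∈ relZ d F := Submodule.Quotient.mk_eq_zero _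

end

section

variable {K : Type u} [Field K] {N e d : ℕ} {F : MvPolynomial (Fin N) K} (H : RegF e F) (hd : d = e + 1) (hN : 1 ≤ N)
  {V : Type*} [Fintype V] [DecidableEq V] {g : V → Fin N →₀ ℕ} {lv : V → ℕ} {cd : V → (Fin N →₀ ℕ) → K} {h : K}
  (hC : CData d (N - 1) F g lv cd h) (hh : h ≠ 0)

include H hd hN hC hh in
/-- The monomials `x ^ (g v)` generate the cohomology. -/
theorem span_g (P : MvPolynomial (Fin N) K) : ∃ a : V → K, brP d F P = ∑ v, a v • brP d F (monomial (g v) 1) := by
  classical
  have he := H.he
  obtain ⟨W, hW⟩ : ∃ W : Submodule K (PKm d F), W = Submodule.span K (Set.range fun v => brP d F (monomial (g v) 1)) :=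
    ⟨_, rfl⟩
  have key : ∀ n : ℕ, ∀ P : MvPolynomial (Fin N) K, P.IsHomogeneous n → brP d F P ∈ W := by
    intro n
    induction n using Nat.strong_induction_on with
    | _ n ih =>
      intro P hP
      have hmono : ∀ w : Fin N →₀ ℕ, dg w = n → brP d F (monomial w 1) ∈ W := by
        intro w hw
        by_cases hdiv : d ∣ dg w + N
        · obtain ⟨k, hk⟩ := hdiv
          have hkd : k * d = n + N := by rw [mul_comm, ← hk, hw]
          have hk1 : 1 ≤ k := by
            rcases Nat.eq_zero_or_pos k with h0 | h0
            · rw [h0, zero_mul] at hkd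
              omega
            · exact h0
          obtain ⟨L, hL, hLW, hLJ⟩ : ∃ L : MvPolynomial (Fin N) K, L.IsHomogeneous n ∧ brP d F L ∈ W ∧
              C h * monomial w 1 - L ∈ Ideal.span (Set.range (gr F)) := by
            by_cases hkN : k ≤ N - 1
            · refine ⟨∑ v, (if lv v = k then monomial (g v) (cd v w) else 0), ?_, ?_, ?_⟩
              · refine IsHomogeneous.sum _ _ _ fun v _ => ?_
                split_ifs with h1
                · rw [← hm_iff]
                  intro e' he'
                  have h2 := support_monomial_subset he'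
                  rw [Finset.mem_singleton] at h2
                  have h3 := hC.lev v
                  rw [tdg_dg, h1] at h3
                  rw [h2]
                  omega
                · exact isHomogeneous_zero _ _ _
              · rw [map_sum]
                refine W.sum_mem fun v _ => ?_
                split_ifs with h1
                · have h2 : (monomial (g v) (cd v w) : MvPolynomial (Fin N) K) = cd v w • monomial (g v) 1 := by
                    rw [smul_monomial, smul_eq_mul, mul_one]
                  rw [h2, map_smul]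
                  refine W.smul_mem _ ?_
                  rw [hW]
                  exact Submodule.subset_span ⟨v, rfl⟩
                · rw [map_zero]
                  exact W.zero_mem
              · refine hC.span k hk1 hkN w ?_
                rw [tdg_dg, hw, hkd]
            · refine ⟨0, isHomogeneous_zero _ _ _, by rw [map_zero]; exact W.zero_mem, ?_⟩
              rw [sub_zero]
              refine Ideal.mul_mem_left _ _ (top_mem H ?_)
              have h1 : N * d ≤ k * d := Nat.mul_le_mul_right d (by omega)
              obtain ⟨f, hf⟩ : ∃ f, e = f + 1 := ⟨e - 1, by omega⟩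
              rw [hf, Nat.add_sub_cancel]
              rw [hkd, hd, hf, mul_add, mul_add, mul_one] at h1
              omega
          have hhom : (C h * monomial w 1 - L).IsHomogeneous n := by
            refine IsHomogeneous.sub ?_ hL
            rw [C_mul_monomial, ← hm_iff]
            intro e' he'
            have h2 := support_monomial_subset he'
            rw [Finset.mem_singleton] at h2
            rw [h2, hw]
          obtain ⟨Q, hQ1, hQ2, hQ3⟩ := jac_hom H hhom hLJ
          have h4 : brP d F (C h * monomial w 1) ∈ W := by
            have h5 : C h * monomial w 1 = L + ∑ j, (dl F j (Q j) - pderiv j (Q j)) := by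
              rw [← sub_eq_iff_eq_add', hQ3]
              refine Finset.sum_congr rfl fun j _ => ?_
              unfold dl gr
              ring
            rw [h5, map_add, map_sum]
            refine W.add_mem hLW (W.sum_mem fun j _ => ?_)
            rw [map_sub, brP_dl, zero_sub]
            refine W.neg_mem ?_
            by_cases hq : n < e
            · rw [hQ2 hq j, map_zero, map_zero]
              exact W.zero_mem
            · exact ih (n - e - 1) (by omega) _ (hQ1 j).pderiv
          have h6 : (C h * monomial w 1 : MvPolynomial (Fin N) K) = h • monomial w 1 := by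
            rw [smul_eq_C_mul]
          rw [h6, map_smul] at h4
          have h7 := W.smul_mem h⁻¹ h4
          rwa [smul_smul, inv_mul_cancel₀ hh, one_smul] at h7
        · rw [brP_out d F w hdiv]
          exact W.zero_mem
      obtain ⟨s, c, hs, rfl⟩ := hm_exp ((hm_iff n P).2 hP)
      rw [map_sum]
      refine W.sum_mem fun w hw => ?_
      rw [map_smul]
      exact W.smul_mem _ (hmono w (hs w hw))
  have h8 : brP d F P ∈ W := by
    rw [← sum_homogeneousComponent P, map_sum]
    exact W.sum_mem fun n _ => key n _ (homogeneousComponent_isHomogeneous n P)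
  rw [hW] at h8
  obtain ⟨a, ha⟩ := (Submodule.mem_span_range_iff_exists_fun K).1 h8
  exact ⟨a, ha.symm⟩

include H hd hC hh in
/-- The residue pairing of complementary levels. -/
theorem rho_ind {j : ℕ} (hj : 1 ≤ j) (hjN : j < N) (lam : V → K) (hl : ∀ v, lv v ≠ j → lam v = 0)
    (h0 : ∀ v', lv v' = N - j → ∑ v, lam v * resf (gr F) (monomial (g v + g v') 1) = 0) : lam = 0 := by
  classical
  have he := H.he
  obtain ⟨P, hP⟩ : ∃ P : MvPolynomial (Fin N) K, P = ∑ v, lam v • monomial (g v) 1 := ⟨_, rfl⟩
  have hPm : ∀ w : Fin N →₀ ℕ, P * monomial w 1 = ∑ v, lam v • monomial (g v + w) 1 := by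
    intro w
    rw [hP, Finset.sum_mul]
    refine Finset.sum_congr rfl fun v _ => ?_
    rw [smul_mul_assoc, monomial_mul, one_mul]
  have hPr : ∀ w : Fin N →₀ ℕ, resf (gr F) (P * monomial w 1) = ∑ v, lam v * resf (gr F) (monomial (g v + w) 1) := by
    intro w
    rw [hPm, map_sum]
    exact Finset.sum_congr rfl fun v _ => map_smul _ _ _
  have hJ : P ∈ Ideal.span (Set.range (gr F)) := by
    refine resf_nondeg H.sop (fun j => mem_X H.he (H.hom j)) P fun w => ?_
    rw [hPr]
    by_cases hw : tdg w = (N - j) * d
    · have h1 := hC.span (N - j) (by omega) (by omega) w hw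
      have h2 : resf (gr F) (P * (C h * monomial w 1 - ∑ v, (if lv v = N - j then monomial (g v) (cd v w) else 0))) = 0 :=
        resf_mem H.sop _ (Ideal.mul_mem_left _ _ h1)
      rw [mul_sub, map_sub, Finset.mul_sum, map_sum, Finset.sum_eq_zero, sub_zero] at h2
      · have h3 : P * (C h * monomial w 1) = h • (P * monomial w 1) := by
          rw [smul_eq_C_mul]
          ring
        rw [h3, map_smul, smul_eq_mul, hPr] at h2
        exact (mul_eq_zero.1 h2).resolve_left hh
      · intro v' _
        split_ifs with h4
        · have h5 : P * monomial (g v') (cd v' w) = cd v' w • (P * monomial (g v') 1) := by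
            rw [← mul_smul_comm, smul_monomial, smul_eq_mul, mul_one]
          rw [h5, map_smul, hPr, h0 v' h4, smul_zero]
        · rw [mul_zero, map_zero]
    · refine Finset.sum_eq_zero fun v _ => ?_
      by_cases hv : lv v = j
      · rw [resf_hom H.sop (fun _ => e) H.hom _ _ (hm_mono (g v + w) 1), mul_zero]
        rw [Finset.sum_const, Finset.card_univ, Fintype.card_fin, smul_eq_mul, dg_add]
        intro h1
        apply hw
        have h2 := hC.lev v
        rw [tdg_dg, hv] at h2
        have h3 : (N - j) * d + j * d = N * d := by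
          rw [← add_mul]
          congr 1
          omega
        have h4 : N * d = N * e + N := by rw [hd, mul_add, mul_one]
        rw [tdg_dg]
        omega
      · rw [hl v hv, zero_mul]
  funext v
  have h1 : ell cd v P = 0 := by
    obtain ⟨Q, hQ⟩ := Ideal.mem_span_range_iff_exists_fun.1 hJ
    rw [← hQ, map_sum]
    exact Finset.sum_eq_zero fun j _ => hC.ker v j _
  rw [hP, map_sum, Finset.sum_eq_single v] at h1
  · rw [map_smul, ell_monomial, one_mul, hC.self, if_pos rfl, smul_eq_mul] at h1
    exact (mul_eq_zero.1 h1).resolve_right hh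
  · intro v' _ hv'
    rw [map_smul, ell_monomial, one_mul, hC.self, if_neg hv'.symm, smul_zero]
  · intro h2
    exact absurd (Finset.mem_univ v) h2

/-- Sums over a level. -/
theorem sum_level (j : ℕ) (a : {v // lv v = j} → K) (f : V → K) :
    ∑ v, (if hv : lv v = j then a ⟨v, hv⟩ else 0) * f v = ∑ v : {v // lv v = j}, a v * f v.1 := by
  classical
  have h1 : ∀ v : {v // lv v = j}, a v * f v.1 =
      (fun v : V => (if hv : lv v = j then a ⟨v, hv⟩ else 0) * f v) v.1 := by
    intro v
    show _ = (if hv : lv v.1 = j then a ⟨v.1, hv⟩ else 0) * f v.1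
    rw [dif_pos v.2]
  rw [Finset.sum_congr rfl fun v _ => h1 v,
    ← Finset.sum_subtype (Finset.univ.filter fun v => lv v = j) (fun v => by simp)
      (fun v : V => (if hv : lv v = j then a ⟨v, hv⟩ else 0) * f v), Finset.sum_filter]
  refine Finset.sum_congr rfl fun v _ => ?_
  by_cases hv : lv v = j
  · rw [if_pos hv]
  · rw [if_neg hv, dif_neg hv, zero_mul]

include H hd hC hh in
private theorem count_le {j : ℕ} (hj : 1 ≤ j) (hjN : j < N) :
    Fintype.card {v // lv v = j} ≤ Fintype.card {v // lv v = N - j} := by
  classical
  obtain ⟨φ, hφ⟩ : ∃ φ : ({v // lv v = j} → K) →ₗ[K] ({v // lv v = N - j} → K),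
      ∀ a v', φ a v' = ∑ v : {v // lv v = j}, a v * resf (gr F) (monomial (g v.1 + g v'.1) 1) :=
    ⟨{ toFun := fun a v' => ∑ v : {v // lv v = j}, a v * resf (gr F) (monomial (g v.1 + g v'.1) 1)
       map_add' := fun a b => by
        funext v'
        rw [Pi.add_apply, ← Finset.sum_add_distrib]
        exact Finset.sum_congr rfl fun v _ => add_mul _ _ _
       map_smul' := fun c a => by
        funext v'
        rw [RingHom.id_apply, Pi.smul_apply, smul_eq_mul, Finset.mul_sum]
        exact Finset.sum_congr rfl fun v _ => mul_assoc _ _ _ }, fun _ _ => rfl⟩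
  have hinj : Function.Injective φ := by
    rw [injective_iff_map_eq_zero]
    intro a ha
    have h1 := rho_ind H hd hC hh hj hjN (fun v => if hv : lv v = j then a ⟨v, hv⟩ else 0) (fun v hv => dif_neg hv)
      (fun v' hv' => by
        have h2 := congrFun ha ⟨v', hv'⟩
        rw [hφ, Pi.zero_apply] at h2
        exact (sum_level j a fun v => resf (gr F) (monomial (g v + g v') 1)).trans h2)
    funext v
    have h2 := congrFun h1 v.1
    simp only [dif_pos v.2] at h2
    exact h2
  have h1 := LinearMap.finrank_le_finrank_of_injective hinj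
  rw [Module.finrank_fintype_fun_eq_card, Module.finrank_fintype_fun_eq_card] at h1
  exact h1

include H hd hC hh in
/-- **The symmetry of the Hodge numbers.** -/
theorem count_symm {j : ℕ} (hj : j ≤ N) : Fintype.card {v // lv v = j} = Fintype.card {v // lv v = N - j} := by
  have h0 : ∀ i, i = 0 ∨ N ≤ i → Fintype.card {v // lv v = i} = 0 := by
    intro i hi
    rw [Fintype.card_eq_zero_iff]
    refine ⟨fun v => ?_⟩
    have h1 := hC.lv_pos v.1
    have h2 := hC.lv_le v.1
    have h3 := v.2
    omega
  rcases Nat.eq_zero_or_pos j with h1 | h1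
  · rw [h0 j (Or.inl h1), h0 (N - j) (Or.inr (by omega))]
  · rcases lt_or_eq_of_le hj with h2 | h2
    · have h3 := count_le H hd hC hh h1 h2
      have h4 := count_le H hd hC hh (j := N - j) (by omega) (by omega)
      have h5 : N - (N - j) = j := by omega
      rw [h5] at h4
      exact le_antisymm h3 h4
    · rw [h0 j (Or.inr (by omega)), h0 (N - j) (Or.inl (by omega))]

end

end MPadcIS
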