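import Pool.Agent.Lib.MP_adc574_ag_LF.Px

/-!
# The `p`-th power of `f + h d` in characteristic `p`
-/

set_option autoImplicit false

namespace MPadcIS

open Polynomial MPadcLF Finset

section general

variable {S : Type*} [CommRing S] {D : S → S}

/-- The iterates of `x ↦ f x + D x`. -/
def it (D : S → S) (f : S) (n : ℕ) (g : S) : S := (fun x => f * x + D x)^[n] g

theorem it_zero (D : S → S) (f g : S) : it D f 0 g = g := rfl

theorem it_succ (D : S → S) (f g : S) (n : ℕ) : it D f (n + 1) g = f * it D f n g + D (it D f n g) :=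
  Function.iterate_succ_apply' _ _ _

theorem it_mul (hD : IsDer D) (f g a b : S) (n : ℕ) : it D (f + g) n (a * b) =
    ∑ ij ∈ antidiagonal n, (n.choose ij.1 : S) * (it D f ij.1 a * it D g ij.2 b) := by
  induction n with
  | zero =>
    rw [Finset.Nat.antidiagonal_zero, sum_singleton, Nat.choose_zero_right, Nat.cast_one, one_mul]
    rfl
  | succ n ih =>
    rw [it_succ, ih, sum_antidiagonal_choose_succ_mul (fun i j => it D f i a * it D g j b) n, hD.sum, mul_sum,
      ← sum_add_distrib, ← sum_add_distrib]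
    refine sum_congr rfl fun ij hij => ?_
    have h1 : n.choose ij.2 = n.choose ij.1 := by
      refine Nat.choose_symm_of_eq_add ?_
      rw [add_comm]
      exact (mem_antidiagonal.1 hij).symm
    rw [hD.mul, hD.natCast, hD.mul, it_succ, it_succ, h1]
    ring

variable (p : ℕ) [hp : Fact p.Prime] [CharP S p]

theorem it_char (hD : IsDer D) (f g a b : S) : it D (f + g) p (a * b) = it D f p a * b + a * it D g p b := by
  have hp0 := hp.out.pos
  rw [it_mul hD]
  have h1 : ((0, p) : ℕ × ℕ) ≠ (p, 0) := by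
    intro h
    rw [Prod.mk.injEq] at h
    omega
  rw [sum_eq_add_of_mem (0, p) (p, 0) (mem_antidiagonal.2 (zero_add p)) (mem_antidiagonal.2 (add_zero p)) h1]
  · rw [Nat.choose_zero_right, Nat.choose_self, Nat.cast_one, one_mul, one_mul, it_zero, it_zero]
    ring
  · rintro ⟨i, j⟩ hij ⟨h2, h3⟩
    have h4 := mem_antidiagonal.1 hij
    have h5 : p ∣ p.choose i := by
      refine hp.out.dvd_choose_self ?_ ?_
      · rintro rfl
        exact h2 (by rw [show j = p by simpa using h4])
      · rcases lt_or_eq_of_le (show i ≤ p by simp only at h4; omega) with h | h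
        · exact h
        · subst h
          exact absurd (by rw [show j = 0 by simp only at h4; omega]) h3
    show ((p.choose i : ℕ) : S) * _ = 0
    rw [(CharP.cast_eq_zero_iff S p _).2 h5, zero_mul]

theorem it_one_add (hD : IsDer D) (f g : S) : it D (f + g) p 1 = it D f p 1 + it D g p 1 := by
  have h := it_char p hD f g 1 1
  rw [mul_one, mul_one, one_mul] at h
  exact h

theorem it_one_nsmul (hD : IsDer D) (f : S) (n : ℕ) : it D ((n : S) * f) p 1 = (n : S) * it D f p 1 := by
  induction n with
  | zero =>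
    rw [Nat.cast_zero, zero_mul, zero_mul]
    have h := it_one_add p hD (0 : S) 0
    rw [add_zero] at h
    exact left_eq_add.1 h
  | succ n ih =>
    rw [Nat.cast_succ, add_mul, one_mul, it_one_add p hD, ih, add_mul, one_mul]

theorem it_eq (hD : IsDer D) (f g : S) : it D f p g = it D f p 1 * g + it D 0 p g := by
  have h := it_char p hD f 0 1 g
  rw [add_zero, one_mul, one_mul] at h
  exact h

end general

section poly

variable {R : Type*} [CommRing R] {d : R → R}

/-- The derivation `h d` of `R[h]`. -/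
noncomputable def hd (d : R → R) (G : R[X]) : R[X] := X * cm d G

theorem isDer_hd (h : IsDer d) : IsDer (hd d) := by
  constructor
  · intro a b
    unfold hd
    rw [(isDer_cm h).add]
    ring
  · intro a b
    unfold hd
    rw [(isDer_cm h).mul]
    ring

theorem hd_C (h : IsDer d) (a : R) : hd d (C a) = X * C (d a) := by
  unfold hd
  rw [cm_C h.zero]

private noncomputable def tt (d : R → R) (f : R) (n k : ℕ) : R := (it (hd d) (C f) n 1).coeff k

private theorem tt_zero_zero (f : R) : tt d f 0 0 = 1 := coeff_one_zero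

private theorem tt_zero_succ (f : R) (k : ℕ) : tt d f 0 (k + 1) = 0 := by
  show (1 : R[X]).coeff (k + 1) = 0
  rw [coeff_one, if_neg (Nat.succ_ne_zero k)]

private theorem tt_succ_zero (f : R) (n : ℕ) : tt d f (n + 1) 0 = f * tt d f n 0 := by
  unfold tt
  rw [it_succ, coeff_add, coeff_C_mul]
  unfold hd
  rw [mul_coeff_zero, coeff_X_zero, zero_mul, add_zero]

private theorem tt_succ_succ (h : IsDer d) (f : R) (n k : ℕ) :
    tt d f (n + 1) (k + 1) = f * tt d f n (k + 1) + d (tt d f n k) := by
  unfold tt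
  rw [it_succ, coeff_add, coeff_C_mul]
  unfold hd
  rw [coeff_X_mul, coeff_cm h.zero]

private theorem tt_lt (h : IsDer d) (f : R) (n : ℕ) : ∀ k, n < k → tt d f n k = 0 := by
  induction n with
  | zero =>
    intro k hk
    obtain ⟨k, rfl⟩ := Nat.exists_eq_succ_of_ne_zero (by omega : k ≠ 0)
    exact tt_zero_succ f k
  | succ n ih =>
    intro k hk
    obtain ⟨k, rfl⟩ := Nat.exists_eq_succ_of_ne_zero (by omega : k ≠ 0)
    rw [Nat.succ_eq_add_one, tt_succ_succ h, ih (k + 1) (by omega), ih k (by omega), h.zero, mul_zero, add_zero]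

private theorem tt_self (h : IsDer d) (f : R) (n : ℕ) : tt d f (n + 1) (n + 1) = 0 := by
  induction n with
  | zero =>
    rw [tt_succ_succ h, tt_lt h f 0 (0 + 1) (by omega), tt_zero_zero, h.one, mul_zero, add_zero]
  | succ n ih =>
    rw [tt_succ_succ h, tt_lt h f (n + 1) (n + 1 + 1) (by omega), ih, h.zero, mul_zero, add_zero]

private theorem tt_zero (f : R) (n : ℕ) : tt d f n 0 = f ^ n := by
  induction n with
  | zero => rw [tt_zero_zero, pow_zero]
  | succ n ih => rw [tt_succ_zero, ih, pow_succ']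

private theorem tt_pred (h : IsDer d) (f : R) (n : ℕ) : tt d f (n + 1) n = d^[n] f := by
  induction n with
  | zero => rw [tt_succ_zero, tt_zero_zero, mul_one, Function.iterate_zero_apply]
  | succ n ih => rw [tt_succ_succ h, ih, tt_self h, mul_zero, zero_add, Function.iterate_succ_apply']

private theorem tt_hom (h : IsDer d) (f : R) (l : ℕ) (n : ℕ) : ∀ k,
    (l : R) ^ k * tt d ((l : R) * f) n k = (l : R) ^ n * tt d f n k := by
  induction n with
  | zero =>
    intro k
    cases k with
    | zero => rw [tt_zero_zero, tt_zero_zero]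
    | succ k => rw [tt_zero_succ, tt_zero_succ, mul_zero, mul_zero]
  | succ n ih =>
    intro k
    cases k with
    | zero =>
      have h1 := ih 0
      rw [tt_succ_zero, tt_succ_zero]
      rw [pow_zero, one_mul] at h1 ⊢
      rw [h1]
      ring
    | succ k =>
      have h1 := ih (k + 1)
      have h2 := congrArg d (ih k)
      have h3 : ∀ m, d ((l : R) ^ m) = 0 := fun m => by
        rw [← Nat.cast_pow]
        exact h.natCast _
      rw [h.mul, h.mul, h3, h3, mul_zero, mul_zero, add_zero, add_zero] at h2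
      rw [tt_succ_succ h, tt_succ_succ h]
      linear_combination (l : R) * f * h1 + (l : R) * h2

variable (p : ℕ) [hp : Fact p.Prime] [CharP R p]

private theorem tt_mid (h : IsDer d) (f : R) {k : ℕ} (h0 : k ≠ 0) (hk : k < p - 1) : tt d f p k = 0 := by
  have h1 : ∃ a : (ZMod p)ˣ, a ^ k ≠ 1 := by
    refine exists_pow_ne_one_of_isCyclic h0 ?_
    rw [Nat.card_eq_fintype_card, ZMod.card_units]
    exact hk
  obtain ⟨a, ha⟩ := h1
  obtain ⟨l, hl⟩ : ∃ l : ℕ, (l : ZMod p) = (a : ZMod p) := ⟨(a : ZMod p).val, ZMod.natCast_zmod_val _⟩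
  have h2 : tt d ((l : R) * f) p k = (l : R) * tt d f p k := by
    unfold tt
    have h3 := it_one_nsmul p (isDer_hd h) (C f) l
    have h4 : C ((l : R) * f) = (l : R[X]) * C f := by
      rw [C_mul, C_eq_natCast]
    rw [h4, h3, ← C_eq_natCast, coeff_C_mul]
  have h3 := tt_hom h f l p k
  rw [h2] at h3
  have h5 : ((l : R) ^ p) = l := by
    have h6 : ((l ^ p : ℕ) : ZMod p) = (l : ZMod p) := by
      rw [Nat.cast_pow, ZMod.pow_card]
    have h7 := (ZMod.natCast_eq_natCast_iff _ _ p).1 h6
    have h8 := (CharP.natCast_eq_natCast' (R := R) (p := p) (a := l ^ p) (b := l)) h7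
    rw [Nat.cast_pow] at h8
    exact h8
  rw [h5] at h3
  -- `l (l ^ k - 1)` is invertible
  have h9 : ((l : ZMod p) * ((l : ZMod p) ^ k - 1)) ≠ 0 := by
    rw [hl]
    refine mul_ne_zero a.ne_zero (sub_ne_zero.2 fun h' => ha ?_)
    apply Units.ext
    rw [Units.val_pow_eq_pow_val, Units.val_one]
    exact h'
  obtain ⟨φ⟩ : Nonempty (ZMod p →+* R) := ⟨ZMod.castHom dvd_rfl R⟩
  have h10 : IsUnit (φ ((l : ZMod p) * ((l : ZMod p) ^ k - 1))) := (isUnit_iff_ne_zero.2 h9).map φ
  rw [map_mul, map_sub, map_pow, map_natCast, map_one] at h10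
  refine (h10.mul_right_eq_zero).1 ?_
  linear_combination h3

/-- **The `p`-th power.** -/
theorem it_pow (h : IsDer d) (f : R) : it (hd d) (C f) p 1 = C (f ^ p) + X ^ (p - 1) * C (d^[p - 1] f) := by
  have hp2 := hp.out.two_le
  obtain ⟨q, hq⟩ : ∃ q, p = q + 1 := ⟨p - 1, by omega⟩
  ext k
  show tt d f p k = _
  rw [coeff_add, coeff_C, coeff_X_pow_mul', coeff_C]
  rcases Nat.eq_zero_or_pos k with rfl | hk
  · rw [tt_zero, if_pos rfl, if_neg (by omega), add_zero]
  · rw [if_neg (by omega), zero_add]
    rcases lt_trichotomy k (p - 1) with h1 | h1 | h1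
    · rw [tt_mid p h f (by omega) h1, if_neg (by omega)]
    · rw [if_pos (by omega), if_pos (by omega)]
      have h2 := tt_pred h f q
      rw [← hq] at h2
      rw [h1, hq, Nat.add_sub_cancel]
      rw [hq] at h2
      exact h2
    · rw [if_pos (by omega), if_neg (by omega)]
      rcases lt_or_eq_of_le (show p ≤ k by omega) with h2 | h2
      · exact tt_lt h f p k h2
      · rw [← h2, hq]
        exact tt_self h f q

theorem it_hd_zero (h : IsDer d) (n : ℕ) (Q : R) : it (hd d) 0 n (C Q) = X ^ n * C (d^[n] Q) := by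
  induction n with
  | zero => rw [it_zero, pow_zero, one_mul, Function.iterate_zero_apply]
  | succ n ih =>
    have h1 : hd d (X : R[X]) = 0 := by
      unfold hd
      rw [cm_X h, mul_zero]
    rw [it_succ, ih, zero_mul, zero_add, Function.iterate_succ_apply', (isDer_hd h).mul, (isDer_hd h).pow, h1, mul_zero,
      mul_zero, add_zero, hd_C h]
    ring

/-- If a functional kills the image of `f + h d`, it kills the multiples of `f ^ p`. -/
theorem fun_pow (h : IsDer d) {f Q : R} (hf : d^[p - 1] f = 0) (hQ : d^[p] Q = 0) {M : Type*} [AddCommGroup M]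
    (L : R[X] →+ M) (hL : ∀ G, L (C f * G + hd d G) = 0) : L (C (f ^ p * Q)) = 0 := by
  have h1 : it (hd d) (C f) p (C Q) = C (f ^ p * Q) := by
    rw [it_eq p (isDer_hd h), it_pow p h, it_hd_zero h, hf, hQ, C_0, mul_zero, mul_zero, add_zero, add_zero, C_mul]
  obtain ⟨q, hq⟩ : ∃ q, p = q + 1 := ⟨p - 1, by have := hp.out.two_le; omega⟩
  rw [← h1]
  conv_lhs => rw [hq]
  rw [it_succ]
  exact hL _

end poly

end MPadcIS
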